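import Pool.Agent.K3h16.FG.Stm

/-! FG project (helper16), brick STAR: elimination of linear variables. -/

set_option autoImplicit false

namespace Pool.Agent.K3h87.FG

open MvPolynomial Pool.Agent.R920.WC Pool.Agent.K3h16.FG

section mon

variable {N : ℕ} {A : Type} [CommRing A] [Algebra ℂ A]

/-- the span of the monomials of degree `D` in the nonlinear variables with property `P` -/
def Mon (a L : Fin N → ℕ) (z : Fin N → A) (D : ℕ) (P : (Fin N → ℕ) → Prop) : Submodule ℂ A :=
  Submodule.span ℂ {w | ∃ m : Fin N → ℕ, (∀ k, ¬ NL a L k → m k = 0) ∧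
    ∑ k, m k * a k = D ∧ P m ∧ w = ∏ k, z k ^ m k}

variable (a L : Fin N → ℕ) (z : Fin N → A)

lemma mon_mul {D D' : ℕ} {P Q R : (Fin N → ℕ) → Prop}
    (h : ∀ m m', P m → Q m' → R (fun k => m k + m' k)) {x y : A} (hx : x ∈ Mon a L z D P)
    (hy : y ∈ Mon a L z D' Q) : x * y ∈ Mon a L z (D + D') R := by
  have h1 := Submodule.mul_mem_mul hx hy
  unfold Mon at h1
  rw [Submodule.span_mul_span] at h1
  refine Submodule.span_mono ?_ h1
  rintro _ ⟨u, ⟨m, hm1, hm2, hm3, rfl⟩, v, ⟨m', hm1', hm2', hm3', rfl⟩, rfl⟩
  refine ⟨fun k => m k + m' k, fun k hk => by simp [hm1 k hk, hm1' k hk], ?_, h m m' hm3 hm3', ?_⟩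
  · simp only [add_mul, Finset.sum_add_distrib, hm2, hm2']
  · simp only [pow_add, Finset.prod_mul_distrib]

lemma mon_mono {D : ℕ} {P Q : (Fin N → ℕ) → Prop}
    (h : ∀ m : Fin N → ℕ, (∀ k, ¬ NL a L k → m k = 0) → ∑ k, m k * a k = D → P m → Q m) {x : A}
    (hx : x ∈ Mon a L z D P) : x ∈ Mon a L z D Q := by
  refine Submodule.span_mono ?_ hx
  rintro _ ⟨m, hm1, hm2, hm3, rfl⟩
  exact ⟨m, hm1, hm2, h m hm1 hm2 hm3, rfl⟩

lemma mon_one : (1 : A) ∈ Mon a L z 0 fun _ => True :=
  Submodule.subset_span ⟨fun _ => 0, fun _ _ => rfl, by simp, trivial, by simp⟩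

lemma mon_pow {D : ℕ} {x : A} (hx : x ∈ Mon a L z D fun _ => True) (n : ℕ) :
    x ^ n ∈ Mon a L z (n * D) fun _ => True := by
  induction n with
  | zero => simpa using mon_one a L z
  | succ n ih =>
    rw [pow_succ, add_mul, one_mul]
    exact mon_mul a L z (fun _ _ _ _ => trivial) ih hx

lemma mon_prod (t : Finset (Fin N)) (x : Fin N → A) (D : Fin N → ℕ)
    (hx : ∀ k ∈ t, x k ∈ Mon a L z (D k) fun _ => True) :
    ∏ k ∈ t, x k ∈ Mon a L z (∑ k ∈ t, D k) fun _ => True := by
  classical
  induction t using Finset.induction_on with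
  | empty => simpa using mon_one a L z
  | insert k t hk ih =>
    rw [Finset.prod_insert hk, Finset.sum_insert hk]
    exact mon_mul a L z (fun _ _ _ _ => trivial) (hx k (Finset.mem_insert_self _ _))
      (ih fun i hi => hx i (Finset.mem_insert_of_mem hi))

lemma mon_var {k : Fin N} (hk : NL a L k) (P : (Fin N → ℕ) → Prop)
    (hP : P (fun x => if x = k then 1 else 0)) : z k ∈ Mon a L z (a k) P := by
  classical
  refine Submodule.subset_span ⟨fun x => if x = k then 1 else 0, ?_, ?_, hP, ?_⟩
  · intro x hx
    have : x ≠ k := by rintro rfl; exact hx hk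
    simp [this]
  · simp
  · rw [Finset.prod_eq_single k]
    · simp
    · intro x _ hx; simp [hx]
    · intro h; exact absurd (Finset.mem_univ k) h

/-- solving for one monomial -/
lemma solve (g : MvPolynomial (Fin N) ℂ) (hg : aeval z g = 0) (m0 : Fin N →₀ ℕ)
    (hm0 : coeff m0 g ≠ 0) (S : Submodule ℂ A)
    (h : ∀ m ∈ g.support, m ≠ m0 → ∏ i, z i ^ m i ∈ S) : ∏ i, z i ^ m0 i ∈ S := by
  classical
  have h1 : aeval z g = ∑ m ∈ g.support, algebraMap ℂ A (coeff m g) * ∏ i, z i ^ m i := by
    rw [aeval_def, eval₂_eq']
  rw [hg, ← Finset.add_sum_erase _ _ (mem_support_iff.2 hm0)] at h1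
  have h2 : ∑ m ∈ g.support.erase m0, algebraMap ℂ A (coeff m g) * ∏ i, z i ^ m i ∈ S := by
    refine Submodule.sum_mem _ fun m hm => ?_
    rw [Finset.mem_erase] at hm
    rw [← Algebra.smul_def]
    exact S.smul_mem _ (h m hm.2 hm.1)
  have h3 : coeff m0 g • ∏ i, z i ^ m0 i ∈ S := by
    have : coeff m0 g • ∏ i, z i ^ m0 i =
        -∑ m ∈ g.support.erase m0, algebraMap ℂ A (coeff m g) * ∏ i, z i ^ m i := by
      rw [Algebra.smul_def]
      linear_combination -h1
    rw [this]
    exact S.neg_mem h2
  have h4 := S.smul_mem (coeff m0 g)⁻¹ h3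
  rwa [smul_smul, inv_mul_cancel₀ hm0, one_smul] at h4

end mon

theorem t_STAR : S_STAR := by
  classical
  intro N c a d f J L ha hcop hd hf hL A _ _ z hz
  have hT : ∀ m m' : Fin N → ℕ, (fun _ : Fin N → ℕ => True) m → (fun _ : Fin N → ℕ => True) m' →
      (fun _ : Fin N → ℕ => True) (fun k => m k + m' k) := fun _ _ _ _ => trivial
  have hweight : ∀ j (m : Fin N →₀ ℕ), m ∈ (f j).support → ∑ k, m k * a k = d j := by
    intro j m hm
    have := hf j (mem_support_iff.1 hm)
    rw [Pool.Agent.R920.WC.weight_eq] at this
    exact this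
  -- first part
  have part1 : ∀ n l, a l = n → z l ∈ Mon a L z (a l) fun _ => True := by
    intro n
    induction n using Nat.strong_induction_on with
    | _ n ih =>
      intro l hl
      by_cases hNL : NL a L l
      · exact mon_var a L z hNL _ trivial
      · have h1 : 1 < a l ∧ L l = 1 := by
          unfold NL at hNL; push Not at hNL; exact hNL
        obtain ⟨h2, h3⟩ := hL l h1.1
        rw [h1.2] at h2 h3
        rw [one_mul] at h2
        have h4 := solve z (f (J l)) (hz _) (Finsupp.single l 1) h3
          (Mon a L z (a l) fun _ => True) (by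
            intro m hm hne
            have hw := hweight _ m hm
            rw [← h2] at hw
            have hml : m l < 1 := by
              apply Pool.Agent.H61.Fu.lt_of_ne_single ha (D := a l) (m := m) (l := l) (ℓ := 1)
              · rw [Pool.Agent.R920.WC.weight_eq]; exact hw
              · rw [one_mul]
              · exact hne
            have h7 : ∀ i, m i ≠ 0 → a i < a l := by
              intro i hi
              have hle : m i * a i ≤ a l := by
                rw [← hw]
                exact Finset.single_le_sum (f := fun x => m x * a x)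
                  (fun x _ => Nat.zero_le _) (Finset.mem_univ i)
              have h8 : 1 * a i ≤ m i * a i :=
                Nat.mul_le_mul_right _ (Nat.one_le_iff_ne_zero.2 hi)
              rcases Nat.lt_or_ge (a i) (a l) with h9 | h9
              · exact h9
              · exfalso
                have h10 : a i = a l := by omega
                have h11 : i ≠ l := by
                  rintro rfl
                  omega
                have h12 := hcop i l h11
                rw [h10] at h12
                have := Nat.coprime_self (a l) |>.1 h12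
                omega
            have h8 := mon_prod a L z Finset.univ (fun k => z k ^ m k) (fun k => m k * a k) (by
              intro k _
              by_cases hk : m k = 0
              · simp only [hk, pow_zero, zero_mul]
                exact mon_one a L z
              · exact mon_pow a L z (ih (a k) (by rw [← hl]; exact h7 k hk) k rfl) (m k))
            rw [hw] at h8
            exact h8)
        rw [Pool.Agent.H61.Fu.prod_single, pow_one] at h4
        exact h4
  have h1 : ∀ l, z l ∈ Mon a L z (a l) fun _ => True := fun l => part1 _ l rfl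
  refine ⟨?_, ?_⟩
  · intro l
    refine Submodule.span_mono ?_ (h1 l)
    rintro _ ⟨m, hm1, hm2, -, rfl⟩
    exact ⟨m, hm1, hm2, rfl⟩
  · intro i hi hLi
    obtain ⟨h2, h3⟩ := hL i hi
    -- the other variables
    have hother : ∀ k, k ≠ i → z k ∈ Mon a L z (a k) fun m => ∃ x, x ≠ i ∧ m x ≠ 0 := by
      intro k hk
      refine mon_mono a L z ?_ (h1 k)
      intro m _ hm2 _
      by_contra hcon
      push Not at hcon
      have h4 : ∑ x, m x * a x = m i * a i := by
        rw [Finset.sum_eq_single i]
        · intro x _ hx
          rw [hcon x hx, zero_mul]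
        · intro h; exact absurd (Finset.mem_univ i) h
      rw [h4] at hm2
      have h5 : a i ∣ a k := ⟨m i, by rw [← hm2, mul_comm]⟩
      have h6 := hcop i k hk.symm
      have h7 := Nat.Coprime.eq_one_of_dvd h6 h5
      omega
    have h4 := solve z (f (J i)) (hz _) (Finsupp.single i (L i)) h3
      (Mon a L z (L i * a i) fun m => ∃ x, x ≠ i ∧ m x ≠ 0) (by
        intro m hm hne
        have hw := hweight _ m hm
        rw [← h2] at hw
        -- some other variable occurs
        obtain ⟨k, hki, hk⟩ : ∃ k, k ≠ i ∧ m k ≠ 0 := by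
          by_contra hcon
          push Not at hcon
          have h5 : ∑ x, m x * a x = m i * a i := by
            rw [Finset.sum_eq_single i]
            · intro x _ hx
              rw [hcon x hx, zero_mul]
            · intro h; exact absurd (Finset.mem_univ i) h
          rw [h5] at hw
          apply hne
          ext x
          by_cases hx : x = i
          · subst hx
            rw [Finsupp.single_eq_same]
            exact Nat.eq_of_mul_eq_mul_right (ha x) hw
          · rw [Finsupp.single_eq_of_ne hx]
            exact hcon x hx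
        rw [← Finset.mul_prod_erase _ _ (Finset.mem_univ k)]
        have h6 : L i * a i = (a k + (m k - 1) * a k) + ∑ x ∈ Finset.univ.erase k, m x * a x := by
          rw [← hw, ← Finset.add_sum_erase _ _ (Finset.mem_univ k)]
          congr 1
          obtain ⟨t, ht⟩ : ∃ t, m k = t + 1 := ⟨m k - 1, by omega⟩
          rw [ht]
          simp only [Nat.add_sub_cancel]
          ring
        rw [h6]
        have h7 : z k ^ m k = z k * z k ^ (m k - 1) := by
          rw [← pow_succ']
          congr 1
          omega
        rw [h7]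
        have hP : ∀ m m' : Fin N → ℕ, (∃ x, x ≠ i ∧ m x ≠ 0) → True →
            ∃ x, x ≠ i ∧ m x + m' x ≠ 0 := by
          rintro m m' ⟨x, hx, hx'⟩ -
          exact ⟨x, hx, by omega⟩
        refine mon_mul a L z (P := fun m => ∃ x, x ≠ i ∧ m x ≠ 0) (Q := fun _ => True) hP
          (mon_mul a L z (P := fun m => ∃ x, x ≠ i ∧ m x ≠ 0) (Q := fun _ => True) hP
            (hother k hki) (mon_pow a L z (h1 k) (m k - 1))) ?_
        exact mon_prod a L z _ (fun x => z x ^ m x) (fun x => m x * a x)
          (fun x _ => mon_pow a L z (h1 x) (m x)))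
    rw [Pool.Agent.H61.Fu.prod_single] at h4
    refine Submodule.span_mono ?_ h4
    rintro _ ⟨m, hm1, hm2, hm3, rfl⟩
    exact ⟨m, hm1, hm2, hm3, rfl⟩

end Pool.Agent.K3h87.FG
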